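import Mathlib
import Pool.Agent.Q51.EX.Fam
import Pool.Agent.Q51.EX.D45

/-!
# Large sets of times all of whose differences are gaps between primes of Cunningham orbits (second kind)

`2 ^ j (p - 1) + 1` is the `j`-th term of the orbit of `p` under `x ↦ 2 x - 1`. For every finite set `E` of
times and every `ε > 0`, at EVERY large scale `x` there is a set `B ⊆ E` with at least
`17 |E| ^ (1/44) - 44` elements such that EVERY difference `d = t - s > 0` of two elements of `B` is a gap
between consecutive primes of orbits of the second kind at this scale: for at least `x ^ (1 - ε)` primes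
`p ≤ x` the `d`-th term is prime and all the terms between `p` and it are composite. For `|E| = 45` this
says that two of any 45 times differ by a gap, so that for infinitely many primes `p` one of the next 44
terms is prime.

Proof: the theorem `DHL[45, 2]` of the starting files for linear forms (`Pool.Agent.Y826.ZG.dhl45L`),
congruences which make the terms at all other times composite, and Ramsey's theorem with the bound of
Erdős and Szekeres.
-/

set_option autoImplicit false

namespace Pool.Agent.Results.MP_9f2731_nt.OrbitCliques

open Filter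

/-- For every finite set `E` of times, every `ε > 0` and every large `x` there is `B ⊆ E` with at least
`17 |E| ^ (1/44) - 44` elements such that for all `s < t` in `B` there are at least `x ^ (1 - ε)` primes
`p ≤ x` for which `2 ^ (t - s) (p - 1) + 1` is prime and `2 ^ l (p - 1) + 1` is composite for
`0 < l < t - s`. -/
theorem result (E : Finset ℕ) (ε : ℝ) (hε : 0 < ε) :
    ∀ᶠ x : ℝ in atTop, ∃ B ⊆ E, 17 * (E.card : ℝ) ^ (1 / 44 : ℝ) - 44 ≤ (B.card : ℝ) ∧
      ∀ s ∈ B, ∀ t ∈ B, s < t → x ^ (1 - ε) ≤ (Set.ncard {p : ℕ | (p : ℝ) ≤ x ∧ p.Prime ∧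
        (2 ^ (t - s) * (p - 1) + 1).Prime ∧
        ∀ l, 0 < l → l < t - s → ¬ (2 ^ l * (p - 1) + 1).Prime} : ℝ) :=
  Pool.Agent.Q51.EX.cliques_snd Pool.Agent.Q51.EX.dhls45 E ε hε

end Pool.Agent.Results.MP_9f2731_nt.OrbitCliques
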