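import Mathlib
import Pool.Agent.Q51.EX.Fam
import Pool.Agent.Q51.EX.Cpx

/-!
# The number of the exact patterns of primes in Cunningham orbits of the second kind

`2 ^ t (n - 1) + 1` is the term at time `t` of the orbit of `n` under `x ↦ 2 x - 1`. How many sets of times
are the exact set of the times of primes of orbits? The conjecture of Dickson predicts all the finite
sets. We prove that every set of `L` times has at least `exp (c (log L) ^ 2) = L ^ (c log L)` subsets `P`
which are exact patterns, for every `c < 1/16` and all large `L`: for every `W` and `η > 0` there are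
arbitrarily large `x` with at least `x ^ (1 - η)` integers `n ≤ x` such that for all `t ≤ W` the term at
time `t` is prime if and only if `t ∈ P`. For `L` consecutive times this is a lower bound for the number
of the words of length `L` in the orbits which is larger than every power of `L`.

Proof: the theorem of Maynard and Tao for linear forms with the explicit number of forms
`exp (4 m + 0.58)` (`Pool.Agent.H358R5.forms_many`, starting files), congruences which make all the other
terms composite, and a double counting.
-/

set_option autoImplicit false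

namespace Pool.Agent.Results.MP_9f2731_nt.PatternComplexity

open Filter

/-- `P` is the exact set of the times of primes, up to every time `W`, of the orbits of many `n` -/
def IsExactPattern (P : Finset ℕ) : Prop :=
  ∀ W : ℕ, ∀ η : ℝ, 0 < η → ∃ᶠ x : ℝ in atTop, x ^ (1 - η) ≤ (Set.ncard {n : ℕ | (n : ℝ) ≤ x ∧
    ∀ t ≤ W, ((2 ^ t * (n - 1) + 1).Prime ↔ t ∈ P)} : ℝ)

/-- For every `c < 1/16` there is `L₀` such that every set `E` of at least `L₀` times has at least
`exp (c (log |E|) ^ 2)` subsets which are exact patterns. -/
theorem result (c : ℝ) (hc : c < 1 / 16) : ∃ L₀ : ℕ, ∀ E : Finset ℕ, L₀ ≤ E.card →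
    Real.exp (c * Real.log E.card ^ 2) ≤ (Set.ncard {P : Finset ℕ | P ⊆ E ∧ IsExactPattern P} : ℝ) := by
  obtain ⟨L₀, hL₀⟩ := Pool.Agent.Q51.EX.seq_complexity c hc
  refine ⟨L₀, fun E hE => (hL₀ _ Pool.Agent.Q51.EX.seq_snd E hE).trans ?_⟩
  rw [Nat.cast_le]
  refine Set.ncard_le_ncard ?_ ((E.powerset.finite_toSet).subset fun P hP => by simpa using hP.1)
  rintro P ⟨hP, h⟩
  refine ⟨hP, fun W η hη => ?_⟩
  refine Pool.Agent.Q51.CP.often_shift (P := Pool.Agent.Q51.EX.Ex Pool.Agent.Q51.EX.snd P W)
    (Q := fun n => ∀ t ≤ W, ((2 ^ t * (n - 1) + 1).Prime ↔ t ∈ P)) 1 ?_ (h W) η hη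
  intro n hn t ht
  have := hn t ht
  rw [Pool.Agent.Q51.EX.v_snd] at this
  simpa using this

end Pool.Agent.Results.MP_9f2731_nt.PatternComplexity
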