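import Pool.Agent.Q46.SL.Tools
import Pool.Agent.Q46.SL.Poly

/-!
# Almost prime Cunningham chains of the second kind at polynomials modulo primes

A Cunningham chain of the second kind of length `l` is `x, 2 x - 1, 4 x - 3, ...`, that is `2 ^ i (x - 1) + 1`, `i < l`. We look for chains all
of whose members have at most `R` prime factors, all larger than `p ^ κ`.

Let `p` be a large prime and `f` a polynomial of degree `d ≥ 2`. In every box `[A1, A1 + N1) × [A2, A2 + N2)` with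
`N1 N2 ≥ p ^ (3 / 2 + ε)` there are many points of `y ≡ f(x) (mod p)` BOTH of whose coordinates, the argument and the least residue
of the value, have the property. Here the property is: the chain of length `l` which starts with the number consists of numbers with at most `R` prime factors, all larger than `p ^ κ`. The lower bound is of the expected order of magnitude (`m = 0`).

In addition the numbers avoid arbitrary residue classes, at most `m` classes `E q` modulo each prime `q ≤ z`, as long as there is no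
local obstruction; `m = 0` is the case without classes. The exponent `κ`, the number `R` and the constant `cc` do not depend on the
classes.

Design and proof: helper46 (modules `Pool.Agent.Q46.SV.*`, `Pool.Agent.Q46.SL.*`): the vectors of the residues in question are
equidistributed modulo all small integers with a power saving, by bounds for exponential sums; the fundamental lemma of the
sieve is applied to the vectors.
-/

set_option autoImplicit false

namespace Pool.Agent.Results.MP_9f2731_nt.PolynomialResidues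

open Finset Polynomial
open Pool.Agent.Q46.SL hiding Almost

/-- `n` is not zero and has at most `R` prime factors (counted with multiplicity), all larger than `z` -/
def Almost (z : ℝ) (R : ℕ) (n : ℤ) : Prop :=
  n ≠ 0 ∧ n.natAbs.primeFactorsList.length ≤ R ∧ ∀ q : ℕ, q.Prime → (q : ℤ) ∣ n → z < q

/-- `x` is positive, all members `2 ^ i (x - 1) + 1`, `i < l`, of the chain have at most `R` prime factors, all larger than `z`, and `x` avoids the classes `E q`, `q ≤ z` -/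
def Good (l : ℕ) (z : ℝ) (R : ℕ) (E : ℕ → Finset ℕ) (x : ℤ) : Prop :=
  0 < x ∧ (∀ i : Fin l, Almost z R (2 ^ (i : ℕ) * (x - 1) + 1)) ∧ ∀ q : ℕ, q.Prime → (q : ℝ) ≤ z → (x % q).toNat ∉ E q

/-- `E q` has at most `m` elements, and for some residue `a` outside `E q` no `2 ^ i (a - 1) + 1`, `i < l`, is divisible by `q` -/
def Adm (l m : ℕ) (E : ℕ → Finset ℕ) : Prop :=
  ∀ q : ℕ, q.Prime → (E q).card ≤ m ∧ ∃ a < q, a ∉ E q ∧ ∀ i : Fin l, ¬ (q : ℤ) ∣ 2 ^ (i : ℕ) * (a - 1) + 1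

/-- the polynomials and the classes -/
noncomputable def sysE (l m : ℕ) (E : ℕ → Finset ℕ) (hE : Adm l m E) : PE l m l where
  f := fun i => C (2 ^ (i : ℕ)) * X + C (1 - 2 ^ (i : ℕ))
  E := E
  deg := by
    have h1 : ∀ i : Fin l, (C (2 ^ (i : ℕ)) * X + C (1 - 2 ^ (i : ℕ)) : ℤ[X]).natDegree ≤ 1 := fun i => by compute_degree
    refine (sum_le_sum fun i _ => h1 i).trans ?_
    simp
  adm := by
    intro q hq
    obtain ⟨h1, a, ha, haE, h2⟩ := hE q hq
    refine ⟨h1, a, ha, haE, fun i => ?_⟩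
    have e1 : (C (2 ^ (i : ℕ)) * X + C (1 - 2 ^ (i : ℕ)) : ℤ[X]).eval (a : ℤ) = 2 ^ (i : ℕ) * (a - 1) + 1 := by
      simp only [eval_add, eval_mul, eval_C, eval_X]
      ring
    rw [e1]
    exact h2 i

lemma good_of {l m : ℕ} {E : ℕ → Finset ℕ} (hE : Adm l m E) {κ M : ℝ} (hM : (2 ^ (l + 1) : ℝ) ≤ M) {x : ℤ}
    (h : Near 1 (sysE l m E hE) κ M x) (hx : (x : ℝ) ≤ M) :
    Good l (M ^ κ) ⌊((1 : ℕ) + (l : ℕ) + 1 : ℝ) / κ⌋₊ E x := by
  obtain ⟨h0, h12⟩ := h
  obtain ⟨h1, h2⟩ := h12 (by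
    intro i
    rw [pow_one]
    refine cb_mono (cb_add (cb_CX (2 ^ (i : ℕ))) (cb_C (1 - 2 ^ (i : ℕ)))) (le_trans ?_ hM)
    have h3 : (2 : ℝ) ^ (i : ℕ) ≤ 2 ^ l := pow_le_pow_right₀ (by norm_num) i.2.le
    have h4 : (1 : ℝ) ≤ 2 ^ (i : ℕ) := one_le_pow₀ (by norm_num)
    push_cast
    rw [abs_of_nonneg (by linarith : (0 : ℝ) ≤ 2 ^ (i : ℕ))]
    have h5 : |1 - (2 : ℝ) ^ (i : ℕ)| ≤ 2 ^ (i : ℕ) := by
      rw [abs_le]
      constructor <;> linarith
    rw [pow_succ]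
    linarith) hx
  refine ⟨h0, fun i => ?_, h2⟩
  have h3 := h1 i
  have e1 : ((sysE l m E hE).f i).eval x = 2 ^ (i : ℕ) * (x - 1) + 1 := by
    show (C (2 ^ (i : ℕ)) * X + C (1 - 2 ^ (i : ℕ)) : ℤ[X]).eval x = _
    simp only [eval_add, eval_mul, eval_C, eval_X]
    ring
  rw [e1] at h3
  exact h3

/-- Almost prime Cunningham chains of the second kind start at both coordinates of many points of `y = f(x)`. -/
theorem result (l m : ℕ) (d : ℕ) (hd : 2 ≤ d) (ε : ℝ) (hε : 0 < ε) (hε1 : ε ≤ 1) :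
    ∃ κ : ℝ, 0 < κ ∧ ∃ cc : ℝ, 0 < cc ∧ ∃ R p₀ : ℕ, ∀ p : ℕ, p₀ ≤ p → p.Prime → ∀ E : ℕ → Finset ℕ, Adm l m E → ∀ f : ℤ[X], f.natDegree = d → ¬ (p : ℤ) ∣ f.leadingCoeff →
      ∀ A1 N1 A2 N2 : ℕ, A1 + N1 ≤ p → A2 + N2 ≤ p → (p : ℝ) ^ (3 / 2 + ε) ≤ (N1 : ℝ) * N2 →
      ∃ G : Finset (ℕ × ℕ), cc * ((N1 : ℝ) * N2 / p) / Real.log p ^ (2 * (m + l)) ≤ G.card ∧
        ∀ z ∈ G, (A1 ≤ z.1 ∧ z.1 < A1 + N1) ∧ (A2 ≤ z.2 ∧ z.2 < A2 + N2) ∧ (p : ℤ) ∣ f.eval (z.1 : ℤ) - z.2 ∧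
          Good l ((p : ℝ) ^ κ) R E z.1 ∧ Good l ((p : ℝ) ^ κ) R E z.2 := by
  obtain ⟨κ, hκ, cc, hcc, p₀, h⟩ := Pool.Agent.Q46.SL.polynomial (Near 1 : PE l m l → ℝ → ℝ → ℤ → Prop)
    (lg (m + l)) (fun r _ => csN l m l 1 r) d hd ε hε hε1
  refine ⟨κ, hκ, cc, hcc, ⌊((1 : ℕ) + (l : ℕ) + 1 : ℝ) / κ⌋₊, max (2 ^ (l + 1)) p₀, ?_⟩
  intro p hp hpp E hE f hf hl A1 N1 A2 N2 hA1 hA2 hN
  have hpr : (2 ^ (l + 1) : ℝ) ≤ p := by exact_mod_cast (le_max_left _ _).trans hp
  obtain ⟨G, hG, hG2⟩ := h p ((le_max_right _ _).trans hp) (sysE l m E hE) hpp f hf hl A1 N1 A2 N2 hA1 hA2 hN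
  refine ⟨G, le_trans (cnt le_rfl (by positivity) (log0 p) _ _) hG, ?_⟩
  intro z hz
  obtain ⟨a1, a2, a3, a4, a5⟩ := hG2 z hz
  exact ⟨a1, a2, a3, good_of hE hpr a4 (by exact_mod_cast (by omega : z.1 ≤ p)), good_of hE hpr a5 (by exact_mod_cast (by omega : z.2 ≤ p))⟩

end Pool.Agent.Results.MP_9f2731_nt.PolynomialResidues
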